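import Pool.Agent.Helper996.LinC.MainG
import Pool.Agent.Helper996.LinC.DefsH
import Pool.Agent.Helper996.LinC.G_mfd

/-!
Compositions `SG_k → X → SG_n` of holomorphic maps through a complex manifold `X` of dimension
`l ≤ k - 3` are constant.

* `LinS.cpoly k w` is the polynomial `X^k + ∑_{i<k-1} w_i X^i` (no term of degree `k-1`);
* `LinC.SG k` is the set of the `w : Fin (k-1) → ℂ` for which its discriminant is `1`: the variety
  `SG_k` in its coordinates `z_2,...,z_k`;
* `LinC.HolSG l f`: the map `f : SG k → X` is holomorphic;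
* `LinC.HolToSG l f`: the map `f : X → SG n` is holomorphic.
-/

set_option autoImplicit false

open Polynomial Set Filter Topology
open scoped Manifold ContDiff

namespace Pool.Agent.Results.MP_7b99f3_ag.Constant

open LinS LinC

/-- compositions `SG_k → X → SG_n` through a complex manifold `X` of dimension `l ≤ k - 3` are
constant -/
theorem result (k n l : ℕ) (hk : 4 < k) (hn : 3 ≤ n) (hl : l + 3 ≤ k)
    (X : Type*) [TopologicalSpace X] [ChartedSpace (Fin l → ℂ) X]
    [IsManifold 𝓘(ℂ, Fin l → ℂ) ω X]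
    (f₁ : SG k → X) (hf₁ : HolSG l f₁) (f₂ : X → SG n) (hf₂ : HolToSG l f₂) :
    ∀ z z' : SG k, f₂ (f₁ z) = f₂ (f₁ z') := by
  obtain ⟨m, rfl⟩ : ∃ m, k = m + 1 := ⟨k - 1, by omega⟩
  obtain ⟨f, hf, hff⟩ := GoodS_of f₁ hf₁ f₂ hf₂
  intro z z'
  apply Subtype.ext
  rw [← hff z, ← hff z']
  exact const_S hf (by omega) (by omega) hn (z : Fin (m + 1 - 1) → ℂ) (z' : Fin (m + 1 - 1) → ℂ)
    z.2 z'.2

end Pool.Agent.Results.MP_7b99f3_ag.Constant
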